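import Mathlib

open Topology Filter Set Real

namespace Pool.Agent.Results.MP_d23f22_an.Threshold

noncomputable section

/-- circle diffeomorphism lift induced by the diagonal matrix (1, k) -/
def U (k x : ℝ) : ℝ :=
  x + arctan ((k - 1) * (sin (π * x) * cos (π * x)) /
    (cos (π * x) ^ 2 + k * sin (π * x) ^ 2)) / π

lemma den_pos {k : ℝ} (hk : 0 < k) (y : ℝ) : 0 < cos y ^ 2 + k * sin y ^ 2 := by
  have h := sin_sq_add_cos_sq y
  by_cases hs : sin y = 0
  · have : cos y ^ 2 = 1 := by rw [hs] at h; linarith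
    rw [this, hs]; norm_num
  · have : 0 < sin y ^ 2 := by positivity
    have h2 : 0 ≤ cos y ^ 2 := by positivity
    have := mul_pos hk this
    linarith

lemma U_add_one (k x : ℝ) : U k (x + 1) = U k x + 1 := by
  have h1 : sin (π * (x + 1)) = - sin (π * x) := by rw [mul_add, mul_one, sin_add_pi]
  have h2 : cos (π * (x + 1)) = - cos (π * x) := by rw [mul_add, mul_one, cos_add_pi]
  unfold U
  rw [h1, h2]
  ring_nf

lemma U_neg (k x : ℝ) : U k (-x) = - U k x := by
  unfold U
  rw [mul_neg, sin_neg, cos_neg, show (k - 1) * (-sin (π * x) * cos (π * x)) /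
      (cos (π * x) ^ 2 + k * (-sin (π * x)) ^ 2) = - ((k - 1) * (sin (π * x) * cos (π * x)) /
      (cos (π * x) ^ 2 + k * (sin (π * x)) ^ 2)) by ring, arctan_neg]
  ring

lemma abs_U_sub (k x : ℝ) : |U k x - x| < 1 / 2 := by
  unfold U
  set y := ((k - 1) * (sin (π * x) * cos (π * x)) /
      (cos (π * x) ^ 2 + k * (sin (π * x)) ^ 2))
  have h1 := arctan_lt_pi_div_two y
  have h2 := neg_pi_div_two_lt_arctan y
  have hp := pi_pos
  rw [show x + arctan y / π - x = arctan y / π by ring, abs_lt]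
  constructor
  · rw [lt_div_iff₀ hp]; linarith
  · rw [div_lt_iff₀ hp]; linarith

lemma one_add_sq {k : ℝ} (hk : 0 < k) (x : ℝ) :
    1 + ((k - 1) * (sin x * cos x) / (cos x ^ 2 + k * sin x ^ 2)) ^ 2
      = (cos x ^ 2 + k ^ 2 * sin x ^ 2) / (cos x ^ 2 + k * sin x ^ 2) ^ 2 := by
  have h := den_pos hk x
  have h' : cos x ^ 2 = 1 - sin x ^ 2 := by linarith [sin_sq_add_cos_sq x]
  rw [div_pow, eq_div_iff (by positivity), add_mul, div_mul_cancel₀ _ (by positivity)]
  have e1 : ((k - 1) * (sin x * cos x)) ^ 2 = (k-1)^2 * sin x ^ 2 * cos x ^ 2 := by ring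
  rw [e1, h']
  ring

lemma sqrt_one_add_sq {k : ℝ} (hk : 0 < k) (x : ℝ) :
    √(1 + ((k - 1) * (sin x * cos x) / (cos x ^ 2 + k * sin x ^ 2)) ^ 2)
      = √(cos x ^ 2 + k ^ 2 * sin x ^ 2) / (cos x ^ 2 + k * sin x ^ 2) := by
  rw [one_add_sq hk, sqrt_div' _ (by positivity), sqrt_sq (den_pos hk x).le]

lemma aux_cos (k s c D R : ℝ) (hD : 0 < D) (hR : 0 < R) (hDe : D = c ^ 2 + k * s ^ 2)
    (h : s ^ 2 + c ^ 2 = 1) :
    c * (1 / (R / D)) - s * ((k - 1) * (s * c) / D / (R / D)) = c / R := by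
  have hD' := hD.ne'
  have hR' := hR.ne'
  field_simp
  rw [hDe]
  linear_combination (c) * h

lemma aux_sin (k s c D R : ℝ) (hD : 0 < D) (hR : 0 < R) (hDe : D = c ^ 2 + k * s ^ 2)
    (h : s ^ 2 + c ^ 2 = 1) :
    s * (1 / (R / D)) + c * ((k - 1) * (s * c) / D / (R / D)) = k * s / R := by
  have hD' := hD.ne'
  have hR' := hR.ne'
  field_simp
  rw [hDe]
  linear_combination (k * s) * h

lemma cos_U {k : ℝ} (hk : 0 < k) (x : ℝ) :
    cos (π * U k x) = cos (π * x) / √(cos (π * x) ^ 2 + k ^ 2 * sin (π * x) ^ 2) := by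
  unfold U
  rw [mul_add, mul_div_cancel₀ _ pi_ne_zero, cos_add, cos_arctan, sin_arctan, sqrt_one_add_sq hk]
  exact aux_cos k _ _ _ _ (den_pos hk (π * x))
    (sqrt_pos.2 (den_pos (show 0 < k ^ 2 by positivity) (π * x))) rfl (sin_sq_add_cos_sq (π * x))

lemma sin_U {k : ℝ} (hk : 0 < k) (x : ℝ) :
    sin (π * U k x) = k * sin (π * x) / √(cos (π * x) ^ 2 + k ^ 2 * sin (π * x) ^ 2) := by
  unfold U
  rw [mul_add, mul_div_cancel₀ _ pi_ne_zero, sin_add, cos_arctan, sin_arctan, sqrt_one_add_sq hk]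
  exact aux_sin k _ _ _ _ (den_pos hk (π * x))
    (sqrt_pos.2 (den_pos (show 0 < k ^ 2 by positivity) (π * x))) rfl (sin_sq_add_cos_sq (π * x))

lemma U_inv {k : ℝ} (hk : 0 < k) (x : ℝ) : U k⁻¹ (U k x) = x := by
  have hk' : 0 < k⁻¹ := inv_pos.2 hk
  have h2 := den_pos (show 0 < k ^ 2 by positivity) (π * x)
  have h2' := sqrt_pos.2 h2
  have hE : cos (π * U k x) ^ 2 + k⁻¹ ^ 2 * sin (π * U k x) ^ 2
      = 1 / (cos (π * x) ^ 2 + k ^ 2 * sin (π * x) ^ 2) := by
    rw [cos_U hk, sin_U hk, div_pow, div_pow, sq_sqrt h2.le]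
    field_simp
    linarith [sin_sq_add_cos_sq (π * x)]
  have hE' : √(cos (π * U k x) ^ 2 + k⁻¹ ^ 2 * sin (π * U k x) ^ 2)
      = 1 / √(cos (π * x) ^ 2 + k ^ 2 * sin (π * x) ^ 2) := by
    rw [hE, sqrt_div' _ h2.le, sqrt_one]
  have hc : cos (π * U k⁻¹ (U k x)) = cos (π * x) := by
    rw [cos_U hk', hE', cos_U hk]
    field_simp
  have hs : sin (π * U k⁻¹ (U k x)) = sin (π * x) := by
    rw [sin_U hk', hE', sin_U hk]
    field_simp
  have hd : cos (π * (U k⁻¹ (U k x) - x)) = 1 := by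
    rw [mul_sub, cos_sub, hc, hs]
    nlinarith [sin_sq_add_cos_sq (π * x)]
  obtain ⟨n, hn⟩ := (cos_eq_one_iff _).1 hd
  have hn' : U k⁻¹ (U k x) - x = 2 * n := by
    have hp := pi_pos
    have : π * (U k⁻¹ (U k x) - x - 2 * n) = 0 := by linarith
    rcases mul_eq_zero.1 this with h | h
    · exact absurd h pi_ne_zero
    · linarith
  have b1 := abs_U_sub k⁻¹ (U k x)
  have b2 := abs_U_sub k x
  have : |(2 * n : ℝ)| < 1 := by
    rw [← hn']
    calc |U k⁻¹ (U k x) - x| = |(U k⁻¹ (U k x) - U k x) + (U k x - x)| := by ring_nf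
      _ ≤ _ := abs_add_le _ _
      _ < 1 := by linarith
  have hn0 : n = 0 := by
    have h3 : |(n : ℝ)| < 1 := by
      rw [abs_mul] at this
      have : |(2:ℝ)| = 2 := by norm_num
      nlinarith [abs_nonneg (n:ℝ)]
    have h4 : |n| < 1 := by exact_mod_cast h3
    exact Int.abs_lt_one_iff.1 h4
  rw [hn0] at hn'
  simp at hn'
  linarith

lemma U_inv' {k : ℝ} (hk : 0 < k) (x : ℝ) : U k (U k⁻¹ x) = x := by
  have := U_inv (inv_pos.2 hk) x
  rwa [inv_inv] at this

lemma aux_der (k s c D E : ℝ) (hD : 0 < D) (hE : 0 < E) (hDe : D = c ^ 2 + k * s ^ 2)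
    (hEe : E = c ^ 2 + k ^ 2 * s ^ 2) (h : s ^ 2 + c ^ 2 = 1) (p : ℝ) (hp : 0 < p) :
    1 + 1 / (E / D ^ 2) * (((k - 1) * ((c * p) * c + s * (-s * p)) * D -
      (k - 1) * (s * c) * (2 * c * (-s * p) + k * (2 * s * (c * p)))) / D ^ 2) / p = k / E := by
  have hD' := hD.ne'
  have hE' := hE.ne'
  have hp' := hp.ne'
  field_simp
  rw [hDe, hEe]
  linear_combination (k + (c ^ 2 - k * s ^ 2) * (k - 1)) * h

lemma hasDerivAt_U {k : ℝ} (hk : 0 < k) (x : ℝ) :
    HasDerivAt (U k) (k / (cos (π * x) ^ 2 + k ^ 2 * sin (π * x) ^ 2)) x := by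
  have h := den_pos hk (π * x)
  have h2 := den_pos (show 0 < k ^ 2 by positivity) (π * x)
  have hlin : HasDerivAt (fun x : ℝ => π * x) π x := by
    simpa using (hasDerivAt_id x).const_mul π
  have hs : HasDerivAt (fun x : ℝ => sin (π * x)) (cos (π * x) * π) x := hlin.sin
  have hc : HasDerivAt (fun x : ℝ => cos (π * x)) (-sin (π * x) * π) x := hlin.cos
  have hnum := ((hs.mul hc).const_mul (k - 1))
  have hden := (hc.pow 2).add ((hs.pow 2).const_mul k)
  have hq := hnum.div hden h.ne'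
  have hfin := (hasDerivAt_id x).add (hq.arctan.div_const π)
  refine hfin.congr_deriv ?_
  simp only [Pi.pow_apply, Pi.mul_apply, Pi.add_apply, Pi.div_apply]
  have h1 := one_add_sq hk (π * x)
  rw [h1, ← aux_der k (sin (π * x)) (cos (π * x)) _ _ h h2 rfl rfl (sin_sq_add_cos_sq (π * x)) π pi_pos]
  norm_num

lemma strictMono_U {k : ℝ} (hk : 0 < k) : StrictMono (U k) :=
  strictMono_of_deriv_pos fun x => by
    rw [(hasDerivAt_U hk x).deriv]
    exact div_pos hk (den_pos (show 0 < k ^ 2 by positivity) _)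

lemma analyticAt_arctan (y : ℝ) : AnalyticAt ℝ arctan y := by
  have hc : cos (arctan y) ≠ 0 := (cos_arctan_pos y).ne'
  have h1 : AnalyticAt ℝ tan (arctan y) := by
    have : tan = fun x => sin x / cos x := by
      ext x; exact tan_eq_sin_div_cos x
    rw [this]
    exact (Real.analyticAt_sin).div (Real.analyticAt_cos) hc
  have h2 : deriv tan (arctan y) ≠ 0 := by
    rw [Real.deriv_tan]
    positivity
  have h3 := (analyticAt_comp_iff_of_deriv_ne_zero (g := arctan) h1 h2).1
  rw [tan_arctan] at h3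
  apply h3
  have : (arctan ∘ tan) =ᶠ[𝓝 (arctan y)] id := by
    have ho : Ioo (-(π / 2)) (π / 2) ∈ 𝓝 (arctan y) :=
      Ioo_mem_nhds (neg_pi_div_two_lt_arctan y) (arctan_lt_pi_div_two y)
    filter_upwards [ho] with z hz
    exact arctan_tan hz.1 hz.2
  exact analyticAt_id.congr this.symm

lemma analyticAt_U {k : ℝ} (hk : 0 < k) (x : ℝ) : AnalyticAt ℝ (U k) x := by
  have hlin : AnalyticAt ℝ (fun x : ℝ => π * x) x := analyticAt_const.mul analyticAt_id
  have hs : AnalyticAt ℝ (fun x : ℝ => sin (π * x)) x := (Real.analyticAt_sin).fun_comp hlin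
  have hc : AnalyticAt ℝ (fun x : ℝ => cos (π * x)) x := (Real.analyticAt_cos).fun_comp hlin
  have hnum : AnalyticAt ℝ (fun x : ℝ => (k - 1) * (sin (π * x) * cos (π * x))) x :=
    analyticAt_const.mul (hs.mul hc)
  have hden : AnalyticAt ℝ (fun x : ℝ => cos (π * x) ^ 2 + k * sin (π * x) ^ 2) x :=
    (hc.pow 2).add (analyticAt_const.mul (hs.pow 2))
  have hq := hnum.div hden (den_pos hk (π * x)).ne'
  have ha := (analyticAt_arctan _).fun_comp hq
  exact analyticAt_id.add (ha.div analyticAt_const pi_ne_zero)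

/-- the circle diffeomorphism (lift) conjugate to the rotation by `a` through `U k` -/
def g (k a x : ℝ) : ℝ := U k (U k⁻¹ x + a)

lemma g_g {k : ℝ} (hk : 0 < k) (a b x : ℝ) : g k a (g k b x) = g k (b + a) x := by
  unfold g
  rw [U_inv hk, add_assoc]

lemma g_zero {k : ℝ} (hk : 0 < k) (x : ℝ) : g k 0 x = x := by
  unfold g
  rw [add_zero, U_inv' hk]

lemma g_add_one (k a x : ℝ) : g k a (x + 1) = g k a x + 1 := by
  unfold g
  rw [U_add_one, show U k⁻¹ x + 1 + a = U k⁻¹ x + a + 1 by ring, U_add_one]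

lemma g_neg (k a x : ℝ) : g k a (-x) = - g k (-a) x := by
  unfold g
  rw [U_neg, show -U k⁻¹ x + a = -(U k⁻¹ x + -a) by ring, U_neg]

lemma strictMono_g {k : ℝ} (hk : 0 < k) (a : ℝ) : StrictMono (g k a) := fun x y hxy =>
  strictMono_U hk (by have := strictMono_U (inv_pos.2 hk) hxy; linarith)

lemma analyticAt_g {k : ℝ} (hk : 0 < k) (a x : ℝ) : AnalyticAt ℝ (g k a) x := by
  have h1 : AnalyticAt ℝ (fun x => U k⁻¹ x + a) x :=
    (analyticAt_U (inv_pos.2 hk) x).add analyticAt_const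
  exact (analyticAt_U hk _).fun_comp h1

lemma abs_g_sub (k a x : ℝ) : |g k a x - x - a| ≤ 1 := by
  unfold g
  have h1 := abs_U_sub k (U k⁻¹ x + a)
  have h2 := abs_U_sub k⁻¹ x
  calc |U k (U k⁻¹ x + a) - x - a|
      = |(U k (U k⁻¹ x + a) - (U k⁻¹ x + a)) + (U k⁻¹ x - x)| := by ring_nf
    _ ≤ _ := abs_add_le _ _
    _ ≤ 1 := by linarith

/-- the forcing term on the line -/
def W (k a x : ℝ) : ℝ := g k a x + g k (-a) x - 2 * x

lemma W_add_one (k a x : ℝ) : W k a (x + 1) = W k a x := by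
  unfold W
  rw [g_add_one, g_add_one]
  ring

lemma W_neg (k a x : ℝ) : W k a (-x) = - W k a x := by
  unfold W
  rw [g_neg, g_neg, neg_neg]
  ring

lemma analyticAt_W {k : ℝ} (hk : 0 < k) (a x : ℝ) : AnalyticAt ℝ (W k a) x :=
  ((analyticAt_g hk a x).add (analyticAt_g hk (-a) x)).sub (analyticAt_const.mul analyticAt_id)

lemma hasDerivAt_g {k : ℝ} (hk : 0 < k) (a x : ℝ) :
    HasDerivAt (g k a) (k / (cos (π * (U k⁻¹ x + a)) ^ 2 + k ^ 2 * sin (π * (U k⁻¹ x + a)) ^ 2) *
      (k⁻¹ / (cos (π * x) ^ 2 + k⁻¹ ^ 2 * sin (π * x) ^ 2))) x := by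
  have h1 : HasDerivAt (fun x => U k⁻¹ x + a)
      (k⁻¹ / (cos (π * x) ^ 2 + k⁻¹ ^ 2 * sin (π * x) ^ 2)) x :=
    (hasDerivAt_U (inv_pos.2 hk) x).add_const a
  exact (hasDerivAt_U hk _).comp x h1

lemma deriv_g_le {k : ℝ} (hk : 0 < k) {a x : ℝ} (hx : |x| ≤ 19 / 50)
    (hka : 20 ≤ k * |sin (π * a)|) : deriv (g k a) x ≤ 1 / 9 := by
  rw [(hasDerivAt_g hk a x).deriv]
  set w := U k⁻¹ x with hw
  set E := cos (π * x) ^ 2 + k⁻¹ ^ 2 * sin (π * x) ^ 2 with hE
  have hE0 : 0 < E := den_pos (show 0 < k⁻¹ ^ 2 by positivity) _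
  have hsin : sin (π * (w + a)) = (k⁻¹ * sin (π * x) * cos (π * a) + cos (π * x) * sin (π * a)) / √E := by
    rw [mul_add, sin_add, hw, sin_U (inv_pos.2 hk), cos_U (inv_pos.2 hk), ← hE]
    ring
  set D := cos (π * (w + a)) ^ 2 + k ^ 2 * sin (π * (w + a)) ^ 2 with hD
  have hD0 : 0 < D := den_pos (show 0 < k ^ 2 by positivity) _
  have hDE : (sin (π * x) * cos (π * a) + k * cos (π * x) * sin (π * a)) ^ 2 ≤ D * E := by
    have h1 : k ^ 2 * sin (π * (w + a)) ^ 2 * E =
        (sin (π * x) * cos (π * a) + k * cos (π * x) * sin (π * a)) ^ 2 := by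
      rw [hsin, div_pow, sq_sqrt hE0.le]
      field_simp
    rw [← h1, hD]
    have : 0 ≤ cos (π * (w + a)) ^ 2 * E := by positivity
    nlinarith
  have hcos : 6 / 25 ≤ cos (π * x) := by
    have hx' := abs_le.1 hx
    have h1 : cos (π * x) = sin (π / 2 - π * |x|) := by
      rw [sin_pi_div_two_sub, ← cos_abs (π * x), abs_mul, abs_of_pos pi_pos]
    rw [h1]
    have hp := pi_pos
    have h2 := mul_le_sin (x := π / 2 - π * |x|) (by nlinarith [abs_nonneg x]) (by nlinarith [abs_nonneg x])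
    have h3 : 2 / π * (π / 2 - π * |x|) = 1 - 2 * |x| := by field_simp
    rw [h3] at h2
    linarith
  have h9 : 9 ≤ D * E := by
    refine le_trans ?_ hDE
    have h1 : 3 ≤ |sin (π * x) * cos (π * a) + k * cos (π * x) * sin (π * a)| := by
      have e1 : |k * cos (π * x) * sin (π * a)| = (k * |sin (π * a)|) * cos (π * x) := by
        rw [abs_mul, abs_mul, abs_of_pos hk, abs_of_nonneg (show 0 ≤ cos (π * x) by linarith)]
        ring
      have e2 : |sin (π * x) * cos (π * a)| ≤ 1 := by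
        rw [abs_mul]
        exact mul_le_one₀ (abs_sin_le_one _) (abs_nonneg _) (abs_cos_le_one _)
      have e3 : 24 / 5 ≤ |k * cos (π * x) * sin (π * a)| := by
        rw [e1]; nlinarith
      have e4 : |k * cos (π * x) * sin (π * a)| ≤
          |sin (π * x) * cos (π * a) + k * cos (π * x) * sin (π * a)| + |sin (π * x) * cos (π * a)| := by
        calc |k * cos (π * x) * sin (π * a)|
            = |(sin (π * x) * cos (π * a) + k * cos (π * x) * sin (π * a)) - sin (π * x) * cos (π * a)| := by ring_nf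
          _ ≤ _ := abs_sub _ _
      linarith
    calc (9:ℝ) = 3 ^ 2 := by norm_num
      _ ≤ |sin (π * x) * cos (π * a) + k * cos (π * x) * sin (π * a)| ^ 2 := by gcongr
      _ = _ := sq_abs _
  have : k / D * (k⁻¹ / E) = 1 / (D * E) := by field_simp
  rw [this]
  exact one_div_le_one_div_of_le (by norm_num) h9

lemma W_sub_le {k : ℝ} (hk : 0 < k) {a : ℝ} (hka : 20 ≤ k * |sin (π * a)|) {x y : ℝ}
    (hx : -(19 / 50) ≤ x) (hxy : x ≤ y) (hy : y ≤ 19 / 50) :
    W k a y - W k a x ≤ -(16 / 9) * (y - x) := by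
  have hd : ∀ z, HasDerivAt (W k a) (deriv (g k a) z + deriv (g k (-a)) z - 2 * 1) z := fun z =>
    ((analyticAt_g hk a z).differentiableAt.hasDerivAt.add
      (analyticAt_g hk (-a) z).differentiableAt.hasDerivAt).sub ((hasDerivAt_id z).const_mul 2)
  refine Convex.image_sub_le_mul_sub_of_deriv_le (convex_Icc (-(19 / 50) : ℝ) (19 / 50))
    (fun z _ => (hd z).continuousAt.continuousWithinAt)
    (fun z _ => (hd z).differentiableAt.differentiableWithinAt) ?_ x ⟨hx, by linarith⟩ y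
    ⟨by linarith, hy⟩ hxy
  intro z hz
  rw [interior_Icc] at hz
  rw [(hd z).deriv]
  have h1 := deriv_g_le hk (a := a) (x := z) (abs_le.2 ⟨hz.1.le, hz.2.le⟩) hka
  have h2 := deriv_g_le hk (a := -a) (x := z) (abs_le.2 ⟨hz.1.le, hz.2.le⟩)
    (by rw [mul_neg, sin_neg, abs_neg]; exact hka)
  linarith

/-- One half of the exclusion argument: for two mutually inverse increasing lifts `G`, `H`
of circle homeomorphisms with contracting sum on `[-a, a]`, the image of `[-b, b]`
under `G` is short. -/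
lemma image_short {G H : ℝ → ℝ} {a b β : ℝ} (hb : 0 < b) (hba : b < a) (hβ : β < 1)
    (hG : StrictMono G) (hH : StrictMono H) (hGc : Continuous G)
    (hHG : ∀ x, H (G x) = x) (hGH : ∀ x, G (H x) = x)
    (hH1 : ∀ x (m : ℤ), H (x + m) = H x + m)
    (hsum : ∀ x y, -a ≤ x → x ≤ y → y ≤ a → (G y - G x) + (H y - H x) ≤ β * (y - x)) :
    G b - G (-b) ≤ 1 - 2 * a := by
  -- no point of `(-a, a)` is mapped by `G` into `(-a, a) + m`
  have key : ∀ x (m : ℤ), -a < x → x < a → -a < G x - m → G x - m < a → False := by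
    intro x m h1 h2 h3 h4
    obtain ⟨y, hy1, hy2, hy3⟩ : ∃ y, x < y ∧ y < a ∧ G y - m < a := by
      have hc : Tendsto (fun y => G y - m) (𝓝[>] x) (𝓝 (G x - m)) :=
        ((hGc.tendsto x).sub_const _).mono_left nhdsWithin_le_nhds
      have e1 : ∀ᶠ y in 𝓝[>] x, G y - m < a := hc.eventually (gt_mem_nhds h4)
      have e2 : ∀ᶠ y in 𝓝[>] x, y < a := nhdsWithin_le_nhds (gt_mem_nhds h2)
      obtain ⟨y, hy⟩ := (e1.and (e2.and self_mem_nhdsWithin)).exists
      exact ⟨y, hy.2.2, hy.2.1, hy.1⟩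
    have hGxy := hG hy1
    have s1 := hsum x y h1.le hy1.le hy2.le
    have s2 := hsum (G x - m) (G y - m) h3.le (by linarith) hy3.le
    have t1 : H (G x - m) = x - m := by
      have := hH1 (G x) (-m)
      push_cast at this
      rw [← sub_eq_add_neg, hHG] at this
      linarith
    have t2 : H (G y - m) = y - m := by
      have := hH1 (G y) (-m)
      push_cast at this
      rw [← sub_eq_add_neg, hHG] at this
      linarith
    rw [t1, t2] at s2
    have s3 := hH hy1
    have s4 : G (G x - m) < G (G y - m) := hG (by linarith)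
    nlinarith
  -- locate the gap containing `G 0`
  set m : ℤ := ⌊G 0 - a⌋ with hm
  have hm1 : (m : ℝ) ≤ G 0 - a := Int.floor_le _
  have hm2 : G 0 - a < m + 1 := Int.lt_floor_add_one _
  have ha : 0 < a := hb.trans hba
  have hm3 : G 0 ≤ 1 - a + m := by
    by_contra hcon
    push Not at hcon
    exact key 0 (m + 1) (by linarith) ha (by push_cast; linarith) (by push_cast; linarith)
  -- upper end
  have up : G b ≤ 1 - a + m := by
    by_contra hcon
    push Not at hcon
    set z := min (G b) (1 + m) with hz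
    have hz1 : 1 - a + m < z := lt_min hcon (by linarith)
    have hz2 : z ≤ G b := min_le_left _ _
    have hz3 : z ≤ 1 + m := min_le_right _ _
    have hy1 : 0 < H z := by
      have : G 0 < G (H z) := by rw [hGH]; linarith
      exact hG.lt_iff_lt.1 this
    have hy2 : H z ≤ b := by
      have : G (H z) ≤ G b := by rw [hGH]; exact hz2
      exact hG.le_iff_le.1 this
    refine key (H z) (m + 1) (by linarith) (by linarith) ?_ ?_
    · rw [hGH]; push_cast; linarith
    · rw [hGH]; push_cast; linarith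
  have lo : a + m ≤ G (-b) := by
    by_contra hcon
    push Not at hcon
    set z := max (G (-b)) m with hz
    have hz1 : z < a + m := max_lt hcon (by linarith)
    have hz2 : G (-b) ≤ z := le_max_left _ _
    have hz3 : (m : ℝ) ≤ z := le_max_right _ _
    have hy1 : H z < 0 := by
      have : G (H z) < G 0 := by rw [hGH]; linarith
      exact hG.lt_iff_lt.1 this
    have hy2 : -b ≤ H z := by
      have : G (-b) ≤ G (H z) := by rw [hGH]; exact hz2
      exact hG.le_iff_le.1 this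
    refine key (H z) m (by linarith) (by linarith) ?_ ?_
    · rw [hGH]; linarith
    · rw [hGH]; linarith
  linarith

/-- Exclusion of invariant graphs, on the line. -/
lemma no_graph_line {k a t : ℝ} (hk : 0 < k) (hka : 20 ≤ k * |sin (π * a)|) (ht : t = 3 / 5)
    {G H : ℝ → ℝ} (hGc : Continuous G) (hHc : Continuous H)
    (hHG : ∀ x, H (G x) = x) (hGH : ∀ x, G (H x) = x)
    (hG1 : ∀ x, G (x + 1) = G x + 1) (hH1 : ∀ x, H (x + 1) = H x + 1)
    (hsum : ∀ x, G x + H x = 2 * x + t * W k a x) : False := by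
  have mono : ∀ {F : ℝ → ℝ}, Continuous F → Function.Injective F → (∀ x, F (x + 1) = F x + 1) →
      StrictMono F := by
    intro F hF hFi hF1
    rcases hF.strictMono_of_inj hFi with h | h
    · exact h
    · exfalso
      have := h (show (0:ℝ) < 0 + 1 by norm_num)
      rw [hF1] at this
      linarith
  have hGm : StrictMono G := mono hGc (Function.LeftInverse.injective hHG) hG1
  have hHm : StrictMono H := mono hHc (Function.LeftInverse.injective hGH) hH1
  have per : ∀ {F : ℝ → ℝ}, (∀ x, F (x + 1) = F x + 1) → ∀ x (m : ℤ), F (x + m) = F x + m := by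
    intro F hF x m
    induction m using Int.induction_on with
    | zero => simp
    | succ n ih =>
      push_cast at ih ⊢
      rw [← add_assoc, hF, ih]; ring
    | pred n ih =>
      push_cast at ih ⊢
      have := hF (x + (-(n:ℝ) - 1))
      rw [show x + (-(n:ℝ) - 1) + 1 = x + -(n:ℝ) by ring, ih] at this
      linarith
  have hbeta : ∀ x y, -(19 / 50) ≤ x → x ≤ y → y ≤ 19 / 50 →
      (G y - G x) + (H y - H x) ≤ (14 / 15) * (y - x) := by
    intro x y h1 h2 h3
    have h4 := W_sub_le hk hka h1 h2 h3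
    have h5 := hsum x
    have h6 := hsum y
    subst ht
    linarith
  have r1 := image_short (a := 19 / 50) (b := 3 / 8) (β := 14 / 15) (by norm_num) (by norm_num)
    (by norm_num) hGm hHm hGc hHG hGH (per hH1) hbeta
  have r2 := image_short (a := 19 / 50) (b := 3 / 8) (β := 14 / 15) (by norm_num) (by norm_num)
    (by norm_num) hHm hGm hHc hGH hHG (per hG1)
    (fun x y h1 h2 h3 => by have := hbeta x y h1 h2 h3; linarith)
  have h5 := hsum (3 / 8)
  have h6 := hsum (-(3 / 8))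
  have h7 : g k a (-(3 / 8)) < g k a (3 / 8) := strictMono_g hk a (by norm_num)
  have h8 : g k (-a) (-(3 / 8)) < g k (-a) (3 / 8) := strictMono_g hk (-a) (by norm_num)
  unfold W at h5 h6
  subst ht
  linarith

/-- The map `F_{V,lam}` of the cylinder `𝕋 × ℝ`, `𝕋 = ℝ/ℤ`. -/
def cylMap (V : UnitAddCircle → ℝ) (lam : ℝ) (z : UnitAddCircle × ℝ) : UnitAddCircle × ℝ :=
  (z.1 + ((z.2 + lam * V z.1 : ℝ) : UnitAddCircle), z.2 + lam * V z.1)

/-- The lift of `F_{V,lam}` to the plane `ℝ × ℝ`, as a bijection. -/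
def liftMap (V : UnitAddCircle → ℝ) (lam : ℝ) : Equiv.Perm (ℝ × ℝ) where
  toFun z := (z.1 + (z.2 + lam * V (z.1 : UnitAddCircle)), z.2 + lam * V (z.1 : UnitAddCircle))
  invFun w := (w.1 - w.2, w.2 - lam * V ((w.1 - w.2 : ℝ) : UnitAddCircle))
  left_inv z := by
    have h : z.1 + (z.2 + lam * V (z.1 : UnitAddCircle)) -
      (z.2 + lam * V (z.1 : UnitAddCircle)) = z.1 := by ring
    ext
    · exact h
    · simp only [h]; ring
  right_inv w := by
    ext
    · simp
    · simp

/-- `γ` is an invariant circle of `F_{V,lam}`: a homotopically non-trivial embedded circle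
in `𝕋 × ℝ` with `F_{V,lam}(γ) = γ`. -/
def IsInvariantCircle (V : UnitAddCircle → ℝ) (lam : ℝ) (γ : Set (UnitAddCircle × ℝ)) : Prop :=
  (∃ c : C(UnitAddCircle, UnitAddCircle × ℝ),
    Function.Injective c ∧ ¬ c.Nullhomotopic ∧ Set.range c = γ) ∧ cylMap V lam '' γ = γ

/-- All orbits on `γ`, followed with the lift of `F_{V,lam}` to the plane, have rotation
number `ρ`. -/
def HasRotationNumber (V : UnitAddCircle → ℝ) (lam : ℝ) (γ : Set (UnitAddCircle × ℝ))
    (ρ : ℝ) : Prop :=
  ∀ x r : ℝ, ((x : UnitAddCircle), r) ∈ γ →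
    Tendsto (fun n : ℤ => (((liftMap V lam ^ n) (x, r)).1 - x) / (n : ℝ)) atTop (𝓝 ρ) ∧
    Tendsto (fun n : ℤ => (((liftMap V lam ^ n) (x, r)).1 - x) / (n : ℝ)) atBot (𝓝 ρ)

/-- Real-analytic function on the circle `ℝ/ℤ`. -/
def RealAnalytic (f : UnitAddCircle → ℝ) : Prop :=
  ∀ x : ℝ, AnalyticAt ℝ (fun y : ℝ => f (y : UnitAddCircle)) x

/-- `γ` is the graph of the function `R` on the circle. -/
def graphOf (R : UnitAddCircle → ℝ) : Set (UnitAddCircle × ℝ) := {z | z.2 = R z.1}

/-- Diophantine numbers. -/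
def Diophantine (ρ : ℝ) : Prop :=
  ∃ C : ℝ, 0 < C ∧ ∃ d : ℝ, 2 < d ∧ ∀ (m : ℤ) (n : ℕ), 0 < n →
    C / (n : ℝ) ^ d < |ρ - m / n|

lemma not_contractible_circle : ¬ ContractibleSpace UnitAddCircle := by
  intro hcon
  have : LocallyPathConnectedSpace UnitAddCircle :=
    (QuotientAddGroup.isOpenQuotientMap_mk
      (N := AddSubgroup.zmultiples (1 : ℝ))).isQuotientMap.locallyPathConnectedSpace
  obtain ⟨F, ⟨-, hF⟩, -⟩ := (AddCircle.isCoveringMap_coe (1 : ℝ)).existsUnique_continuousMap_lifts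
    (ContinuousMap.id UnitAddCircle) (0 : UnitAddCircle) (0 : ℝ) (by simp)
  have hF' : ∀ z : UnitAddCircle, ((F z : ℝ) : UnitAddCircle) = z := fun z => congrFun hF z
  set h : ℝ → ℝ := fun x => F (x : UnitAddCircle) - x with hh
  have hc : Continuous h := by
    have : Continuous (fun x : ℝ => F (x : UnitAddCircle)) :=
      F.continuous.comp (AddCircle.continuous_mk' 1)
    exact this.sub continuous_id
  have hint : ∀ x, ∃ n : ℤ, h x = n := by
    intro x
    have : ((h x : ℝ) : UnitAddCircle) = 0 := by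
      rw [hh]
      simp only [AddCircle.coe_sub, hF', sub_self]
    rw [AddCircle.coe_eq_zero_iff] at this
    obtain ⟨n, hn⟩ := this
    exact ⟨n, by simpa using hn.symm⟩
  have h01 : h 1 = h 0 - 1 := by
    have : ((1 : ℝ) : UnitAddCircle) = ((0 : ℝ) : UnitAddCircle) := by
      rw [AddCircle.coe_period]; simp
    simp only [hh, this]
    ring
  have hiv := intermediate_value_Icc' (show (0:ℝ) ≤ 1 by norm_num) hc.continuousOn
  have hmem : h 0 - 1 / 2 ∈ Icc (h 1) (h 0) := ⟨by linarith, by linarith⟩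
  obtain ⟨x, -, hx⟩ := hiv hmem
  obtain ⟨n, hn⟩ := hint x
  obtain ⟨m, hm⟩ := hint 0
  have : (2 * (m - n) : ℝ) = 1 := by linarith
  have : (2 * (m - n) : ℤ) = 1 := by exact_mod_cast this
  omega

lemma ucoe_add (x y : ℝ) : ((x + y : ℝ) : UnitAddCircle) = (x : UnitAddCircle) + (y : UnitAddCircle) :=
  rfl

lemma exists_int_of_coe_eq {x y : ℝ} (h : (x : UnitAddCircle) = (y : UnitAddCircle)) :
    ∃ n : ℤ, x = y + n := by
  have h1 : ((x - y : ℝ) : UnitAddCircle) = 0 := by rw [AddCircle.coe_sub, h, sub_self]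
  rw [AddCircle.coe_eq_zero_iff] at h1
  obtain ⟨n, hn⟩ := h1
  refine ⟨n, ?_⟩
  have : (n : ℝ) = x - y := by simpa using hn
  linarith

lemma coe_add_int (x : ℝ) (n : ℤ) : ((x + n : ℝ) : UnitAddCircle) = (x : UnitAddCircle) := by
  have : ((n : ℝ) : UnitAddCircle) = 0 := by
    rw [AddCircle.coe_eq_zero_iff]
    exact ⟨n, by simp⟩
  rw [AddCircle.coe_add, this, add_zero]

lemma per_int {F : ℝ → ℝ} (hF : ∀ x, F (x + 1) = F x + 1) (x : ℝ) (m : ℤ) :
    F (x + m) = F x + m := by
  induction m using Int.induction_on with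
  | zero => simp
  | succ n ih =>
    push_cast at ih ⊢
    rw [← add_assoc, hF, ih]; ring
  | pred n ih =>
    push_cast at ih ⊢
    have := hF (x + (-(n:ℝ) - 1))
    rw [show x + (-(n:ℝ) - 1) + 1 = x + -(n:ℝ) by ring, ih] at this
    linarith

/-- The forcing function on the circle. -/
def Vc (k a : ℝ) : UnitAddCircle → ℝ :=
  Function.Periodic.lift (f := W k a) (c := (1 : ℝ)) (fun x => W_add_one k a x)

lemma Vc_coe (k a x : ℝ) : Vc k a (x : UnitAddCircle) = W k a x := rfl

lemma realAnalytic_Vc {k : ℝ} (hk : 0 < k) (a : ℝ) : RealAnalytic (Vc k a) := fun x =>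
  analyticAt_W hk a x

lemma integral_Vc {k : ℝ} (hk : 0 < k) (a : ℝ) :
    ∫ x in (0 : ℝ)..1, Vc k a (x : UnitAddCircle) = 0 := by
  simp only [Vc_coe]
  have hper : Function.Periodic (W k a) 1 := fun x => W_add_one k a x
  have hcont : Continuous (W k a) :=
    continuous_iff_continuousAt.2 fun x => (analyticAt_W hk a x).continuousAt
  have h1 : ∫ x in (0 : ℝ)..1, W k a x = ∫ x in (-1/2 : ℝ)..(1/2), W k a x := by
    have := hper.intervalIntegral_add_eq 0 (-1/2)
    norm_num at this ⊢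
    exact this
  rw [h1]
  have h2 : ∫ x in (-1/2 : ℝ)..(1/2), W k a x = ∫ x in (-1/2 : ℝ)..(1/2), W k a (-x) := by
    rw [intervalIntegral.integral_comp_neg]
    norm_num
  have h3 : ∫ x in (-1/2 : ℝ)..(1/2), W k a (-x) = - ∫ x in (-1/2 : ℝ)..(1/2), W k a x := by
    rw [← intervalIntegral.integral_neg]
    simp only [W_neg]
  linarith

/-- The invariant graph at parameter `1`. -/
def Rline (k a x : ℝ) : ℝ := x - g k (-a) x

lemma Rline_add_one (k a x : ℝ) : Rline k a (x + 1) = Rline k a x := by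
  unfold Rline
  rw [g_add_one]; ring

def Rc (k a : ℝ) : UnitAddCircle → ℝ :=
  Function.Periodic.lift (f := Rline k a) (c := (1 : ℝ)) (fun x => Rline_add_one k a x)

lemma Rc_coe (k a x : ℝ) : Rc k a (x : UnitAddCircle) = Rline k a x := rfl

lemma analyticAt_Rline {k : ℝ} (hk : 0 < k) (a x : ℝ) : AnalyticAt ℝ (Rline k a) x :=
  analyticAt_id.sub (analyticAt_g hk (-a) x)

lemma realAnalytic_Rc {k : ℝ} (hk : 0 < k) (a : ℝ) : RealAnalytic (Rc k a) := fun x =>
  analyticAt_Rline hk a x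

lemma continuous_of_realAnalytic {R : UnitAddCircle → ℝ} (h : RealAnalytic R) : Continuous R := by
  have h1 : Continuous (fun x : ℝ => R (x : UnitAddCircle)) :=
    continuous_iff_continuousAt.2 fun x => (h x).continuousAt
  exact (QuotientAddGroup.isOpenQuotientMap_mk
      (N := AddSubgroup.zmultiples (1 : ℝ))).isQuotientMap.continuous_iff.2 h1

/-- The graph of a continuous function is a homotopically non-trivial embedded circle. -/
lemma graph_embedded {R : UnitAddCircle → ℝ} (hR : Continuous R) :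
    ∃ c : C(UnitAddCircle, UnitAddCircle × ℝ),
      Function.Injective c ∧ ¬ c.Nullhomotopic ∧ Set.range c = graphOf R := by
  refine ⟨⟨fun z => (z, R z), continuous_id.prodMk hR⟩, ?_, ?_, ?_⟩
  · intro x y hxy
    exact (Prod.mk.inj hxy).1
  · intro hnull
    have h1 := hnull.comp_right (⟨Prod.fst, continuous_fst⟩ : C(UnitAddCircle × ℝ, UnitAddCircle))
    have h2 : (⟨Prod.fst, continuous_fst⟩ : C(UnitAddCircle × ℝ, UnitAddCircle)).comp
        ⟨fun z => (z, R z), continuous_id.prodMk hR⟩ = ContinuousMap.id UnitAddCircle := by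
      ext z; rfl
    rw [h2] at h1
    exact not_contractible_circle ((contractible_iff_id_nullhomotopic _).2 h1)
  · ext z
    constructor
    · rintro ⟨y, rfl⟩
      rfl
    · intro hz
      exact ⟨z.1, Prod.ext rfl hz.symm⟩

lemma cylMap_Rc {k : ℝ} (hk : 0 < k) (a x : ℝ) :
    cylMap (Vc k a) 1 ((x : UnitAddCircle), Rline k a x)
      = (((g k a x : ℝ) : UnitAddCircle), Rline k a (g k a x)) := by
  have e1 : Rline k a x + 1 * W k a x = g k a x - x := by
    unfold Rline W; ring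
  have e2 : Rline k a (g k a x) = g k a x - x := by
    unfold Rline
    rw [g_g hk, add_neg_cancel, g_zero hk]
  unfold cylMap
  simp only [Vc_coe]
  rw [e1, e2, ← AddCircle.coe_add]
  congr 2
  ring

lemma invariant_Rc {k : ℝ} (hk : 0 < k) (a : ℝ) :
    cylMap (Vc k a) 1 '' graphOf (Rc k a) = graphOf (Rc k a) := by
  ext z
  constructor
  · rintro ⟨⟨y, r⟩, hy, rfl⟩
    obtain ⟨x, rfl⟩ := QuotientAddGroup.mk_surjective y
    have hr : r = Rline k a x := hy
    subst hr
    rw [show ((QuotientAddGroup.mk x : UnitAddCircle), Rline k a x)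
      = ((x : UnitAddCircle), Rline k a x) from rfl, cylMap_Rc hk]
    rfl
  · obtain ⟨y, r⟩ := z
    intro hy
    obtain ⟨x, rfl⟩ := QuotientAddGroup.mk_surjective y
    have hr : r = Rline k a x := hy
    subst hr
    refine ⟨((g k (-a) x : ℝ), Rline k a (g k (-a) x)), rfl, ?_⟩
    rw [cylMap_Rc hk, g_g hk, neg_add_cancel, g_zero hk]

lemma liftMap_Rline {k : ℝ} (hk : 0 < k) (a x : ℝ) :
    liftMap (Vc k a) 1 (x, Rline k a x) = (g k a x, Rline k a (g k a x)) := by
  have e1 : Rline k a x + 1 * W k a x = g k a x - x := by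
    unfold Rline W; ring
  have e2 : Rline k a (g k a x) = g k a x - x := by
    unfold Rline
    rw [g_g hk, add_neg_cancel, g_zero hk]
  unfold liftMap
  simp only [Equiv.coe_fn_mk, Vc_coe]
  rw [e1, e2]
  ext
  · simp
  · simp

lemma liftMap_pow {k : ℝ} (hk : 0 < k) (a x : ℝ) (n : ℕ) :
    (liftMap (Vc k a) 1 ^ n) (x, Rline k a x) = (g k (n * a) x, Rline k a (g k (n * a) x)) := by
  induction n with
  | zero => simp [g_zero hk]
  | succ n ih =>
    rw [pow_succ', Equiv.Perm.mul_apply, ih, liftMap_Rline hk, g_g hk]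
    have : (n : ℝ) * a + a = ((n + 1 : ℕ) : ℝ) * a := by push_cast; ring
    rw [this]

lemma liftMap_zpow {k : ℝ} (hk : 0 < k) (a x : ℝ) (n : ℤ) :
    (liftMap (Vc k a) 1 ^ n) (x, Rline k a x) = (g k (n * a) x, Rline k a (g k (n * a) x)) := by
  rcases Int.eq_nat_or_neg n with ⟨m, rfl | rfl⟩
  · simpa using liftMap_pow hk a x m
  · rw [zpow_neg, zpow_natCast, Equiv.Perm.inv_eq_iff_eq, liftMap_pow hk, g_g hk]
    have : ((-(m : ℤ) : ℤ) : ℝ) * a + (m : ℝ) * a = 0 := by push_cast; ring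
    rw [this, g_zero hk]

lemma tendsto_aux {f : ℤ → ℝ} {ρ : ℝ} (h : ∀ n : ℤ, |f n - n * ρ| ≤ 1) :
    Tendsto (fun n : ℤ => f n / n) atTop (𝓝 ρ) := by
  have h0 : Tendsto (fun n : ℤ => (1 : ℝ) / n) atTop (𝓝 0) := by
    have h1 := tendsto_inv_atTop_zero.comp (tendsto_intCast_atTop_atTop (R := ℝ))
    refine h1.congr fun n => ?_
    simp
  rw [tendsto_iff_norm_sub_tendsto_zero]
  refine squeeze_zero' (Eventually.of_forall fun n => norm_nonneg _) ?_ h0
  filter_upwards [eventually_gt_atTop (0 : ℤ)] with n hn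
  have hn' : (0 : ℝ) < n := by exact_mod_cast hn
  rw [norm_eq_abs, show f n / n - ρ = (f n - n * ρ) / n by field_simp, abs_div, abs_of_pos hn']
  gcongr
  exact h n

lemma hasRotationNumber_Rc {k : ℝ} (hk : 0 < k) (a : ℝ) :
    HasRotationNumber (Vc k a) 1 (graphOf (Rc k a)) a := by
  intro x r hr
  have hr' : r = Rline k a x := hr
  subst hr'
  simp only [liftMap_zpow hk]
  have hb : ∀ n : ℤ, |(g k (n * a) x - x) - n * a| ≤ 1 := fun n => abs_g_sub k (n * a) x
  refine ⟨tendsto_aux hb, ?_⟩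
  have h2 : Tendsto (fun n : ℤ => (-(g k ((-n : ℤ) * a) x - x)) / n) atTop (𝓝 a) := by
    apply tendsto_aux
    intro n
    have := hb (-n)
    rw [← abs_neg]
    convert! this using 2
    push_cast
    ring
  have h3 := h2.comp tendsto_neg_atBot_atTop
  refine h3.congr fun n => ?_
  simp only [Function.comp]
  push_cast
  rw [neg_neg, neg_div_neg_eq]

/-- No continuous invariant graph at parameter `3/5`. -/
lemma no_invariant_graph {k a : ℝ} (hk : 0 < k) (hka : 20 ≤ k * |sin (π * a)|)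
    {R : UnitAddCircle → ℝ} (hR : Continuous R) :
    cylMap (Vc k a) (3 / 5) '' graphOf R ≠ graphOf R := by
  intro hinv
  have hWc : Continuous (W k a) :=
    continuous_iff_continuousAt.2 fun x => (analyticAt_W hk a x).continuousAt
  have hRc : Continuous (fun x : ℝ => R (x : UnitAddCircle)) :=
    hR.comp (AddCircle.continuous_mk' 1)
  set G : ℝ → ℝ := fun x => x + (R (x : UnitAddCircle) + 3 / 5 * W k a x) with hG
  set H : ℝ → ℝ := fun x => x - R (x : UnitAddCircle) with hH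
  have hR1 : ∀ x : ℝ, R ((x + 1 : ℝ) : UnitAddCircle) = R (x : UnitAddCircle) := by
    intro x
    have := coe_add_int x 1
    push_cast at this
    rw [this]
  have hRG : ∀ x : ℝ, R ((G x : ℝ) : UnitAddCircle) = R (x : UnitAddCircle) + 3 / 5 * W k a x := by
    intro x
    have hmem : cylMap (Vc k a) (3 / 5) ((x : UnitAddCircle), R (x : UnitAddCircle)) ∈ graphOf R := by
      rw [← hinv]
      exact ⟨_, rfl, rfl⟩
    have h2 : (cylMap (Vc k a) (3 / 5) ((x : UnitAddCircle), R (x : UnitAddCircle))).2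
      = R (cylMap (Vc k a) (3 / 5) ((x : UnitAddCircle), R (x : UnitAddCircle))).1 := hmem
    unfold cylMap at h2
    simp only [Vc_coe] at h2
    rw [hG]
    simp only
    rw [ucoe_add]
    exact h2.symm
  have hHG : ∀ x, H (G x) = x := by
    intro x
    have h1 := hRG x
    show G x - R ((G x : ℝ) : UnitAddCircle) = x
    rw [h1]
    show x + (R (x : UnitAddCircle) + 3 / 5 * W k a x) -
      (R (x : UnitAddCircle) + 3 / 5 * W k a x) = x
    ring
  have hG1 : ∀ x, G (x + 1) = G x + 1 := by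
    intro x
    simp only [hG, hR1, W_add_one]
    ring
  have hH1 : ∀ x, H (x + 1) = H x + 1 := by
    intro x
    simp only [hH, hR1]
    ring
  have hGH : ∀ x, G (H x) = x := by
    intro x
    have hmem : ((x : UnitAddCircle), R (x : UnitAddCircle)) ∈
        cylMap (Vc k a) (3 / 5) '' graphOf R := by
      rw [hinv]; rfl
    obtain ⟨⟨y, r⟩, hy, hyx⟩ := hmem
    obtain ⟨y, rfl⟩ := QuotientAddGroup.mk_surjective y
    have hr : r = R (y : UnitAddCircle) := hy
    subst hr
    unfold cylMap at hyx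
    have e1 := (Prod.mk.inj hyx).1
    have e2 := (Prod.mk.inj hyx).2
    have e3 : ((G y : ℝ) : UnitAddCircle) = (x : UnitAddCircle) := by
      simp only [hG]
      rw [ucoe_add]
      exact e1
    obtain ⟨n, hn⟩ := exists_int_of_coe_eq e3
    have h5 : H (G y) = H x + n := by rw [hn]; exact per_int hH1 x n
    rw [hHG] at h5
    have h6 : H x = y + (-n : ℤ) := by push_cast; linarith
    rw [h6, per_int hG1, hn]
    push_cast
    ring
  refine no_graph_line (k := k) (a := a) (t := 3 / 5) hk hka rfl (G := G) (H := H) ?_ ?_ hHG hGH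
    hG1 hH1 ?_
  · exact continuous_id.add (hRc.add (continuous_const.mul hWc))
  · exact continuous_id.sub hRc
  · intro x
    simp only [hG, hH]
    ring

lemma diophantine_golden : Diophantine ((√5 - 1) / 2) := by
  have h5 : √5 ^ 2 = 5 := sq_sqrt (by norm_num)
  have h5' : 2 < √5 := by
    rw [show (2:ℝ) = √4 by rw [show (4:ℝ) = 2 ^ 2 by norm_num, sqrt_sq (by norm_num)]]
    exact sqrt_lt_sqrt (by norm_num) (by norm_num)
  have h5'' : √5 < 3 := by
    rw [show (3:ℝ) = √9 by rw [show (9:ℝ) = 3 ^ 2 by norm_num, sqrt_sq (by norm_num)]]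
    exact sqrt_lt_sqrt (by norm_num) (by norm_num)
  refine ⟨1 / 8, by norm_num, 3, by norm_num, ?_⟩
  intro m n hn
  have hn1 : (1 : ℝ) ≤ n := by exact_mod_cast hn
  have hn0 : (0 : ℝ) < n := by linarith
  have hpow : (n : ℝ) ^ (3 : ℝ) = (n : ℝ) ^ 3 := by exact_mod_cast rpow_natCast (n : ℝ) 3
  rw [hpow]
  set ρ : ℝ := (√5 - 1) / 2 with hρ
  have hroot : ρ ^ 2 + ρ - 1 = 0 := by rw [hρ]; nlinarith
  -- the integer m^2 + m n - n^2 is non-zero
  have hne : m ^ 2 + m * n - (n : ℤ) ^ 2 ≠ 0 := by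
    intro h0
    have h0' : (m : ℝ) ^ 2 + m * n - (n : ℝ) ^ 2 = 0 := by exact_mod_cast h0
    have hfac : (m - ρ * n) * (m + (ρ + 1) * n) = (0 : ℝ) := by
      have : (m - ρ * n) * (m + (ρ + 1) * n) = (m : ℝ) ^ 2 + m * n - (ρ ^ 2 + ρ) * n ^ 2 := by ring
      rw [this, show ρ ^ 2 + ρ = 1 by linarith]
      linarith
    have hirr : Irrational √5 := by
      have := Nat.Prime.irrational_sqrt (show Nat.Prime 5 by norm_num)
      exact_mod_cast this
    apply hirr
    rcases mul_eq_zero.1 hfac with h | h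
    · refine ⟨2 * (m / n : ℚ) + 1, ?_⟩
      push_cast
      have : (m : ℝ) / n = ρ := by field_simp; linarith
      rw [this, hρ]; ring
    · refine ⟨-2 * (m / n : ℚ) - 1, ?_⟩
      push_cast
      have : (m : ℝ) / n = -(ρ + 1) := by field_simp; linarith
      rw [this, hρ]; ring
  have hone : (1 : ℝ) ≤ |(m : ℝ) ^ 2 + m * n - (n : ℝ) ^ 2| := by
    have : (1 : ℤ) ≤ |m ^ 2 + m * n - (n : ℤ) ^ 2| := Int.one_le_abs hne
    exact_mod_cast this
  set q : ℝ := m / n with hq
  have hm : (m : ℝ) = q * n := by rw [hq]; field_simp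
  have hfac : (m : ℝ) ^ 2 + m * n - (n : ℝ) ^ 2 = (q - ρ) * (q + ρ + 1) * n ^ 2 := by
    rw [hm]
    have : (q - ρ) * (q + ρ + 1) = q ^ 2 + q - (ρ ^ 2 + ρ) := by ring
    rw [this, show ρ ^ 2 + ρ = 1 by linarith]
    ring
  rw [hfac, abs_mul, abs_mul, abs_of_pos (show (0:ℝ) < n ^ 2 by positivity)] at hone
  have hcub : 1 / 8 / (n : ℝ) ^ 3 ≤ 1 / 8 / (n : ℝ) ^ 2 := by
    apply div_le_div_of_nonneg_left (by norm_num) (by positivity)
    exact pow_le_pow_right₀ hn1 (by norm_num)
  rw [abs_sub_comm]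
  by_cases hlt : |q - ρ| < 1
  · have h4 : |q + ρ + 1| ≤ 4 := by
      have h1 := abs_lt.1 hlt
      rw [abs_le]
      constructor <;> nlinarith
    have h6 : 1 ≤ |q - ρ| * 4 * n ^ 2 := by
      refine hone.trans ?_
      gcongr
    have h7 : 1 / 4 / (n : ℝ) ^ 2 ≤ |q - ρ| := by
      rw [div_le_iff₀ (by positivity)]
      linarith
    have h8 : 1 / 8 / (n : ℝ) ^ 2 < 1 / 4 / (n : ℝ) ^ 2 := by
      apply div_lt_div_of_pos_right (by norm_num) (by positivity)
    linarith
  · push Not at hlt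
    have h8 : 1 / 8 / (n : ℝ) ^ 2 ≤ 1 / 8 := by
      apply div_le_self (by norm_num)
      exact one_le_pow₀ hn1
    linarith

lemma sin_ne_zero_of_diophantine {ρ : ℝ} (h : Diophantine ρ) : sin (π * ρ) ≠ 0 := by
  intro h0
  obtain ⟨C, hC, d, -, hd⟩ := h
  obtain ⟨m, hm⟩ := sin_eq_zero_iff.1 h0
  have hρ : ρ = m := by
    have : π * (ρ - m) = 0 := by linarith
    rcases mul_eq_zero.1 this with h | h
    · exact absurd h pi_ne_zero
    · linarith
  have := hd m 1 one_pos
  rw [hρ] at this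
  simp at this
  linarith

/-- **Disproof of the threshold statement**, for every Diophantine rotation number `ρ`, and
already for positive parameters. The golden mean is Diophantine, and for every Diophantine `ρ`
there are a real-analytic zero-mean `V` on the circle and `t` with `0 < t < 1` such that

* `F_{V,1}` has an analytic invariant circle of rotation number `ρ`;
* `F_{V,t}` has no invariant circle that is the graph of a continuous function (in particular
  no analytic invariant circle, of any rotation number);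
* hence, for every `Λ ≥ 0`, either some `lam > Λ` admits an invariant circle of rotation
  number `ρ`, or some `lam` with `0 < lam < Λ` admits no analytic invariant circle of rotation
  number `ρ`. -/
theorem result :
    Diophantine ((√5 - 1) / 2) ∧
    ∀ ρ : ℝ, Diophantine ρ →
      ∃ V : UnitAddCircle → ℝ, RealAnalytic V ∧ (∫ x in (0 : ℝ)..1, V (x : UnitAddCircle)) = 0 ∧
        ∃ t : ℝ, 0 < t ∧ t < 1 ∧
        (∃ R : UnitAddCircle → ℝ, RealAnalytic R ∧ IsInvariantCircle V 1 (graphOf R) ∧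
          HasRotationNumber V 1 (graphOf R) ρ) ∧
        (∀ R : UnitAddCircle → ℝ, Continuous R → ¬ IsInvariantCircle V t (graphOf R)) ∧
        ∀ Λ : ℝ, 0 ≤ Λ →
          (∃ lam : ℝ, Λ < lam ∧ ∃ γ : Set (UnitAddCircle × ℝ),
            IsInvariantCircle V lam γ ∧ HasRotationNumber V lam γ ρ) ∨
          (∃ lam : ℝ, 0 < lam ∧ lam < Λ ∧ ¬ ∃ R : UnitAddCircle → ℝ, RealAnalytic R ∧
            IsInvariantCircle V lam (graphOf R) ∧ HasRotationNumber V lam (graphOf R) ρ) := by
  refine ⟨diophantine_golden, ?_⟩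
  intro ρ hρ
  have hs := sin_ne_zero_of_diophantine hρ
  have hs' : 0 < |sin (π * ρ)| := abs_pos.2 hs
  set k : ℝ := 20 / |sin (π * ρ)| with hk
  have hk0 : 0 < k := by positivity
  have hka : 20 ≤ k * |sin (π * ρ)| := by rw [hk, div_mul_cancel₀ _ hs'.ne']
  have hex : IsInvariantCircle (Vc k ρ) 1 (graphOf (Rc k ρ)) :=
    ⟨graph_embedded (continuous_of_realAnalytic (realAnalytic_Rc hk0 ρ)), invariant_Rc hk0 ρ⟩
  have hrot := hasRotationNumber_Rc hk0 ρ
  have hno : ∀ R : UnitAddCircle → ℝ, Continuous R →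
      ¬ IsInvariantCircle (Vc k ρ) (3 / 5) (graphOf R) := fun R hR h =>
    no_invariant_graph hk0 hka hR h.2
  refine ⟨Vc k ρ, realAnalytic_Vc hk0 ρ, integral_Vc hk0 ρ, 3 / 5, by norm_num, by norm_num,
    ⟨Rc k ρ, realAnalytic_Rc hk0 ρ, hex, hrot⟩, hno, ?_⟩
  intro Λ hΛ
  by_cases h1 : Λ < 1
  · exact Or.inl ⟨1, h1, _, hex, hrot⟩
  · push Not at h1
    refine Or.inr ⟨3 / 5, by norm_num, by linarith, ?_⟩
    rintro ⟨R, hR, hinv, -⟩
    exact hno R (continuous_of_realAnalytic hR) hinv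

end

end Pool.Agent.Results.MP_d23f22_an.Threshold
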